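import Pool.Agent.Lib.SmN.Ch.Defs
import Pool.Agent.Lib.GBU.LagH

/-!
# SmN: duality for the quadratic characters, instance over a global function field

`lagF_of`: if `S` is a system over the places of the global function field `K` with the decomposition
data `sgK`, `phK`, `epsK` of `Lib/GBU/Plc.lean` and `NN = NP K Om`, then `LagF S T` holds for every
finite set `T` of places such that every divisor of degree `0` is principal up to `T`
(`PrinOut T`).
-/

set_option autoImplicit false

namespace Pool.Agent.SmN.Ch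

open Pool.Agent.BSDFF Pool.Agent.Lib.SmD Pool.Agent.GBC Pool.Agent.GBR Pool.Agent.GBU

section gen

variable {k K : Type} [Field k] [Field K] [Algebra k K] {Om : Type} [Field Om] [Algebra K Om]
  {V V1 : Type} [AddCommGroup V] [DistribMulAction (Om ≃ₐ[K] Om) V]
  [AddCommGroup V1] [Module (ZMod 2) V1] (S : Sys (Om ≃ₐ[K] Om) V V1 (Place k K))

theorem homG_iff_homO [IsSepClosure K Om] (h2 : (2 : K) ≠ 0) (hNN : S.NN = NP K Om)
    {c : (Om ≃ₐ[K] Om) → ZMod 2} : S.HomG c ↔ HomO c := by
  constructor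
  · rintro ⟨⟨N, hN, h1⟩, h3⟩
    rw [hNN] at hN
    exact homO_of_NP h3 ⟨N, hN, h1⟩
  · intro h
    obtain ⟨N, hN, h1⟩ := h.tf h2
    exact ⟨⟨N, by rw [hNN]; exact hN, h1⟩, h.add⟩

theorem sym2_eq_symK (heps : S.eps = epsK) (v : Place k K) (x y : ZMod 2 × ZMod 2) :
    sym2 S v x y = symK v x y := by
  rw [sym2, symK, heps]

end gen

section main

variable {k K : Type} [Field k] [Finite k] [Field K] [Algebra k K] [Algebra (RatFunc k) K]
  [IsScalarTower k (RatFunc k) K] [FiniteDimensional (RatFunc k) K]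
  [Algebra.IsSeparable (RatFunc k) K] {Om : Type} [Field Om]
  [Algebra K Om] [IsSepClosure K Om]
  {V V1 : Type} [AddCommGroup V] [DistribMulAction (Om ≃ₐ[K] Om) V]
  [AddCommGroup V1] [Module (ZMod 2) V1] {S : Sys (Om ≃ₐ[K] Om) V V1 (Place k K)}

/-- Duality for the quadratic characters, with any decomposition data having the right local
values. -/
theorem lagF_of_locVals (h2 : (2 : k) ≠ 0) (hNN : S.NN = NP K Om) (H : LocVals S.sg S.phi)
    (heps : S.eps = epsK) {T : Set (Place k K)} (hf : T.Finite)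
    (hT : PrinOut T) : LagF S T := by
  have h2' : (2 : K) ≠ 0 := two_ne_K h2
  refine ⟨fun b hb h0 => ?_, fun xi h => ?_, fun w hw => ?_, fun c d hc hd => ?_⟩
  · funext s
    refine lag_inj h2 H hf hT ((homG_iff_homO S h2' hNN).1 hb.1) hb.2 (fun v hv => ?_) s
    have h3 := h0 v hv
    rw [loc2, Prod.mk_eq_zero] at h3
    exact h3
  · obtain ⟨om, h3, h4, h5⟩ := lag_surj h2 H hf hT xi fun b hb hr => by
      rw [← h b ⟨(homG_iff_homO S h2' hNN).2 hb, hr⟩]
      refine finsum_congr fun v => finsum_congr fun _ => ?_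
      rw [sym2_eq_symK S heps, loc2]
    exact ⟨om, ⟨(homG_iff_homO S h2' hNN).2 h3, h4⟩, h5⟩
  · obtain ⟨c, h3, h4, h5⟩ := lag_ram h2 H hT hw
    exact ⟨c, (homG_iff_homO S h2' hNN).2 h3, h4, h5⟩
  · rw [← recipK h2 H ((homG_iff_homO S h2' hNN).1 hc) ((homG_iff_homO S h2' hNN).1 hd)]
    refine finsum_congr fun v => ?_
    rw [sym2_eq_symK S heps, loc2, loc2]

/-- Duality for the quadratic characters. -/
theorem lagF_of (h2 : (2 : k) ≠ 0) (hNN : S.NN = NP K Om) (hsg : S.sg = sgK Om)
    (hph : S.phi = phK Om) (heps : S.eps = epsK) {T : Set (Place k K)} (hf : T.Finite)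
    (hT : PrinOut T) : LagF S T :=
  lagF_of_locVals h2 hNN (by rw [hsg, hph]; exact locVals h2) heps hf hT

end main

end Pool.Agent.SmN.Ch
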