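import Pool.Agent.Lib.SmN.Ch.Be

/-!
# SMITH-U (SmN), the counting data from duality: the quadratic characters `ch P`

`exists_ch`: there are a linear map `sec2` from the dual of the space of the quadratic characters
unramified outside `T` to the local vectors at `T` and, for every place `P` outside `T`, a quadratic
character `ch P`, ramified at `P`, unramified at the other places outside `T`, whose local vector at
`T` is `sec2 (b ↦ b (phi P))`.
-/

set_option autoImplicit false

open Finset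

namespace Pool.Agent.SmN.Ch

variable {G V V1 Pl : Type} [Group G] [AddCommGroup V] [DistribMulAction G V]
  [AddCommGroup V1] [Module (ZMod 2) V1]

variable {S : Sys G V V1 Pl} {T : Set Pl}

theorem loc2_add (v : Pl) (c d : G → ZMod 2) : loc2 S v (c + d) = loc2 S v c + loc2 S v d := rfl

theorem loc2_smul (v : Pl) (a : ZMod 2) (c : G → ZMod 2) : loc2 S v (a • c) = a • loc2 S v c := rfl

theorem sym2_add_left (v : Pl) (x x' y : ZMod 2 × ZMod 2) :
    sym2 S v (x + x') y = sym2 S v x y + sym2 S v x' y := by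
  simp only [sym2, Prod.fst_add, Prod.snd_add]
  ring

theorem sym2_add_right (v : Pl) (x y y' : ZMod 2 × ZMod 2) :
    sym2 S v x (y + y') = sym2 S v x y + sym2 S v x y' := by
  simp only [sym2, Prod.fst_add, Prod.snd_add]
  ring

theorem sym2_smul_left (v : Pl) (a : ZMod 2) (x y : ZMod 2 × ZMod 2) :
    sym2 S v (a • x) y = a * sym2 S v x y := by
  simp only [sym2, Prod.smul_fst, Prod.smul_snd, smul_eq_mul]
  ring

theorem sym2_smul_right (v : Pl) (a : ZMod 2) (x y : ZMod 2 × ZMod 2) :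
    sym2 S v x (a • y) = a * sym2 S v x y := by
  simp only [sym2, Prod.smul_fst, Prod.smul_snd, smul_eq_mul]
  ring

theorem sym2_comm (v : Pl) (x y : ZMod 2 × ZMod 2) : sym2 S v x y = sym2 S v y x := by
  simp only [sym2]
  ring

/-- The space of the quadratic characters unramified outside `T`. -/
def XTm (hS : S.Ok) (T : Set Pl) : Submodule (ZMod 2) (G → ZMod 2) where
  carrier := {c | XT S T c}
  add_mem' := by
    intro a b ha hb
    exact ⟨Sys.HomG.add hS ha.1 hb.1, fun v hv => by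
      rw [Pi.add_apply, ha.2 v hv, hb.2 v hv, add_zero]⟩
  zero_mem' := ⟨Sys.HomG.zero hS, fun _ _ => rfl⟩
  smul_mem' := by
    intro a c hc
    rcases smul_cases a c with h | h
    · rw [h]
      exact ⟨Sys.HomG.zero hS, fun _ _ => rfl⟩
    · rw [h]
      exact hc

/-- The pairing map. -/
noncomputable def Xi2 (hS : S.Ok) {T : Set Pl} (hT : T.Finite) :
    (Pl → ZMod 2 × ZMod 2) →ₗ[ZMod 2] Module.Dual (ZMod 2) (XTm hS T) :=
  LinearMap.mk₂ (ZMod 2)
    (fun (xi : Pl → ZMod 2 × ZMod 2) (b : XTm hS T) =>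
      ∑ v ∈ hT.toFinset, sym2 S v (xi v) (loc2 S v b.1))
    (by
      intro x y b
      rw [← sum_add_distrib]
      refine sum_congr rfl fun v _ => ?_
      rw [Pi.add_apply, sym2_add_left])
    (by
      intro a x b
      rw [smul_eq_mul, mul_sum]
      refine sum_congr rfl fun v _ => ?_
      rw [Pi.smul_apply, sym2_smul_left])
    (by
      intro x b b'
      rw [← sum_add_distrib]
      refine sum_congr rfl fun v _ => ?_
      rw [Submodule.coe_add, loc2_add, sym2_add_right])
    (by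
      intro a x b
      rw [smul_eq_mul, mul_sum]
      refine sum_congr rfl fun v _ => ?_
      rw [Submodule.coe_smul, loc2_smul, sym2_smul_right])

theorem Xi2_apply (hS : S.Ok) (hT : T.Finite) (xi : Pl → ZMod 2 × ZMod 2) (b : XTm hS T) :
    Xi2 hS hT xi b = ∑ v ∈ hT.toFinset, sym2 S v (xi v) (loc2 S v b.1) := rfl

/-- The functional `b ↦ b s`. -/
def mu (hS : S.Ok) (T : Set Pl) (s : G) : Module.Dual (ZMod 2) (XTm hS T) where
  toFun b := b.1 s
  map_add' _ _ := rfl
  map_smul' _ _ := rfl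

theorem mu_apply (hS : S.Ok) (s : G) (b : XTm hS T) : mu hS T s b = b.1 s := rfl

/-- Reciprocity for a character ramified at `P` and `T` only. -/
theorem sum_T2 (hV : LagV S T) (hF : LagF S T) {P : Pl} (hP : P ∉ T)
    {c d : G → ZMod 2} (hc : S.HomG c) (hcu : ∀ v, v ∉ T → v ≠ P → c (S.sg v) = 0)
    (hd : XT S T d) :
    ∑ v ∈ hV.fin.toFinset, sym2 S v (loc2 S v c) (loc2 S v d) = c (S.sg P) * d (S.phi P) := by
  classical
  have h1 := hF.recip c d hc hd.1
  have h2 : ∀ v, v ∉ T → v ≠ P → sym2 S v (loc2 S v c) (loc2 S v d) = 0 := fun v hv hvP => by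
    simp only [sym2, loc2]
    rw [hcu v hv hvP, hd.2 v hv]
    ring
  have h3 : sym2 S P (loc2 S P c) (loc2 S P d) = c (S.sg P) * d (S.phi P) := by
    simp only [sym2, loc2]
    rw [hd.2 P hP]
    ring
  have h4 : (Function.support fun v => sym2 S v (loc2 S v c) (loc2 S v d)) ⊆
      ((insert P hV.fin.toFinset : Finset Pl) : Set Pl) := by
    intro v hv
    rw [Function.mem_support] at hv
    rw [Finset.coe_insert, Set.mem_insert_iff, Set.Finite.coe_toFinset]
    by_contra hcon
    push Not at hcon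
    exact hv (h2 v hcon.2 hcon.1)
  rw [finsum_eq_sum_of_support_subset _ h4, sum_insert (by simpa using hP), h3] at h1
  have h5 : c (S.sg P) * d (S.phi P) + c (S.sg P) * d (S.phi P) = 0 := CharTwo.add_self_eq_zero _
  linear_combination h1 - h5

theorem exists_ch (hS : S.Ok) (hV : LagV S T) (hF : LagF S T) :
    ∃ (sec2 : Module.Dual (ZMod 2) (XTm hS T) →ₗ[ZMod 2] (Pl → ZMod 2 × ZMod 2))
      (ch : Pl → G → ZMod 2), ∀ P, P ∉ T →
        S.HomG (ch P) ∧ ch P (S.sg P) = 1 ∧ (∀ v, v ∉ T → v ≠ P → ch P (S.sg v) = 0) ∧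
        ∀ v ∈ T, loc2 S v (ch P) = sec2 (mu hS T (S.phi P)) v := by
  classical
  obtain ⟨sec2, hsec⟩ := exists_sec (Xi2 hS hV.fin)
  refine ⟨sec2, ?_⟩
  have key : ∀ P : Pl, P ∉ T → ∃ ch : G → ZMod 2,
        S.HomG ch ∧ ch (S.sg P) = 1 ∧ (∀ v, v ∉ T → v ≠ P → ch (S.sg v) = 0) ∧
        ∀ v ∈ T, loc2 S v ch = sec2 (mu hS T (S.phi P)) v := by
    intro P hP
    obtain ⟨c, hc, hc1, hcu⟩ := hF.ram P hP
    have hmu : Xi2 hS hV.fin (fun v => loc2 S v c) = mu hS T (S.phi P) := by
      ext b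
      rw [Xi2_apply, mu_apply, sum_T2 hV hF hP hc hcu b.2, hc1, one_mul]
    have h1 := hsec (fun v => loc2 S v c)
    rw [hmu] at h1
    obtain ⟨om, hom, hom'⟩ := hF.surj
      (fun v => sec2 (mu hS T (S.phi P)) v + loc2 S v c) (by
        intro b hb
        rw [finsum_mem_eq_finite_toFinset_sum _ hV.fin]
        have h2 := LinearMap.congr_fun h1 ⟨b, hb⟩
        rw [Xi2_apply, mu_apply] at h2
        have h3 := sum_T2 hV hF hP hc hcu hb
        rw [hc1, one_mul] at h3
        simp only [sym2_add_left, sum_add_distrib]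
        rw [h2, h3]
        exact CharTwo.add_self_eq_zero _)
    refine ⟨c + om, Sys.HomG.add hS hc hom.1, ?_, ?_, ?_⟩
    · rw [Pi.add_apply, hom.2 P hP, hc1, add_zero]
    · intro v hv hvP
      rw [Pi.add_apply, hom.2 v hv, hcu v hv hvP, add_zero]
    · intro v hv
      rw [loc2_add, hom' v hv, add_comm (sec2 (mu hS T (S.phi P)) v), ← add_assoc]
      have h5 : ∀ x : ZMod 2 × ZMod 2, x + x = 0 := fun x =>
        Prod.ext (CharTwo.add_self_eq_zero _) (CharTwo.add_self_eq_zero _)
      rw [h5, zero_add]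
  choose! ch hch using key
  exact ⟨ch, hch⟩

/-- The sum over `T` of the symbols of two characters, each ramified at one place outside `T`. -/
theorem sum_T3 (hV : LagV S T) (hF : LagF S T) {P Q : Pl} (hP : P ∉ T) (hQ : Q ∉ T) (hPQ : P ≠ Q)
    {c d : G → ZMod 2} (hc : S.HomG c) (hcu : ∀ v, v ∉ T → v ≠ P → c (S.sg v) = 0)
    (hd : S.HomG d) (hdu : ∀ v, v ∉ T → v ≠ Q → d (S.sg v) = 0) (hc1 : c (S.sg P) = 1)
    (hd1 : d (S.sg Q) = 1) :
    c (S.phi Q) + d (S.phi P) =
      ∑ v ∈ hV.fin.toFinset, sym2 S v (loc2 S v c) (loc2 S v d) := by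
  classical
  have h1 := hF.recip c d hc hd
  have h2 : ∀ v, v ∉ T → v ≠ P → v ≠ Q → sym2 S v (loc2 S v c) (loc2 S v d) = 0 :=
    fun v hv hvP hvQ => by
      simp only [sym2, loc2]
      rw [hcu v hv hvP, hdu v hv hvQ]
      ring
  have h3 : sym2 S P (loc2 S P c) (loc2 S P d) = d (S.phi P) := by
    simp only [sym2, loc2]
    rw [hdu P hP hPQ, hc1]
    ring
  have h3' : sym2 S Q (loc2 S Q c) (loc2 S Q d) = c (S.phi Q) := by
    simp only [sym2, loc2]
    rw [hcu Q hQ hPQ.symm, hd1]
    ring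
  have h4 : (Function.support fun v => sym2 S v (loc2 S v c) (loc2 S v d)) ⊆
      ((insert P (insert Q hV.fin.toFinset) : Finset Pl) : Set Pl) := by
    intro v hv
    rw [Function.mem_support] at hv
    rw [Finset.coe_insert, Finset.coe_insert, Set.mem_insert_iff, Set.mem_insert_iff,
      Set.Finite.coe_toFinset]
    by_contra hcon
    push Not at hcon
    exact hv (h2 v hcon.2.2 hcon.1 hcon.2.1)
  rw [finsum_eq_sum_of_support_subset _ h4, sum_insert (by simp [hPQ, hP]),
    sum_insert (by simpa using hQ), h3, h3'] at h1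
  have h5 : ∀ x : ZMod 2, x + x = 0 := fun x => CharTwo.add_self_eq_zero _
  linear_combination h1 - h5 (∑ v ∈ hV.fin.toFinset, sym2 S v (loc2 S v c) (loc2 S v d))

end Pool.Agent.SmN.Ch
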