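import Pool.Agent.Lib.SmN.Cnt.Defs
import Pool.Agent.Lib.SmN.G.CT

/-!
# SMITH-U (SmN), the counting data from duality: definitions

`LagV S T`: duality for the cocycles with values in `V1` unramified outside the finite set `T` of
places (the local vectors at `T` of these cocycles are a maximal isotropic subspace), `LagF S T`: the
same for quadratic characters, with reciprocity. From these two structures and `S.Ok` we construct
the counting data `CData` and prove `CData.Ok`.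
-/

set_option autoImplicit false

open Finset

namespace Pool.Agent.SmN.Ch

variable {G V V1 Pl : Type} [Group G] [AddCommGroup V] [DistribMulAction G V]
  [AddCommGroup V1] [Module (ZMod 2) V1]

/-- The cocycles unramified outside `T`. -/
def ZT (S : Sys G V V1 Pl) (T : Set Pl) (c : G → V1) : Prop :=
  S.CocG c ∧ ∀ v, v ∉ T → c (S.sg v) = 0

/-- The quadratic characters unramified outside `T`. -/
def XT (S : Sys G V V1 Pl) (T : Set Pl) (c : G → ZMod 2) : Prop :=
  S.HomG c ∧ ∀ v, v ∉ T → c (S.sg v) = 0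

/-- The local symbol of two quadratic characters. -/
def sym2 (S : Sys G V V1 Pl) (v : Pl) (x y : ZMod 2 × ZMod 2) : ZMod 2 :=
  x.1 * y.2 + x.2 * y.1 + S.eps v * (x.1 * y.1)

/-- The pair of values of a character. -/
def loc2 (S : Sys G V V1 Pl) (v : Pl) (c : G → ZMod 2) : ZMod 2 × ZMod 2 :=
  (c (S.sg v), c (S.phi v))

/-- Duality for `V1` with respect to the finite set `T`. -/
structure LagV (S : Sys G V V1 Pl) (T : Set Pl) : Prop where
  fin : T.Finite
  bad : S.goodᶜ ⊆ T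
  inj : ∀ b : G → V1, ZT S T b → (∀ v ∈ T, ∃ z, S.loc v b = S.cob v z) →
    ∃ z, ∀ s, b s = S.ac s z - z
  surj : ∀ xi : Pl → V1 × V1, (∀ v, xi v ∈ S.CP v) →
    (∀ b : G → V1, ZT S T b → ∑ᶠ v ∈ T, S.sy v (xi v) (S.loc v b) = 0) →
    ∃ om : G → V1, ZT S T om ∧ ∀ v ∈ T, ∃ z, S.loc v om = xi v + S.cob v z
  ram : ∀ w, w ∉ T → ∀ x : V1, S.ac (S.phi w) x = x →
    ∃ c : G → V1, S.CocG c ∧ c (S.sg w) = x ∧ ∀ v, v ∉ T → v ≠ w → c (S.sg v) = 0

/-- Duality for the quadratic characters with respect to the finite set `T`. -/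
structure LagF (S : Sys G V V1 Pl) (T : Set Pl) : Prop where
  inj : ∀ b : G → ZMod 2, XT S T b → (∀ v ∈ T, loc2 S v b = 0) → b = 0
  surj : ∀ xi : Pl → ZMod 2 × ZMod 2,
    (∀ b : G → ZMod 2, XT S T b → ∑ᶠ v ∈ T, sym2 S v (xi v) (loc2 S v b) = 0) →
    ∃ om : G → ZMod 2, XT S T om ∧ ∀ v ∈ T, loc2 S v om = xi v
  ram : ∀ w, w ∉ T → ∃ c : G → ZMod 2, S.HomG c ∧ c (S.sg w) = 1 ∧
    ∀ v, v ∉ T → v ≠ w → c (S.sg v) = 0
  recip : ∀ c d : G → ZMod 2, S.HomG c → S.HomG d →
    ∑ᶠ v, sym2 S v (loc2 S v c) (loc2 S v d) = 0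

end Pool.Agent.SmN.Ch
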