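import Pool.Agent.Lib.SmN.Ch.Defs

/-!
# SMITH-U (SmN), the counting data from duality: the class `kf`

`kst S N0`: `s ~ t` iff `t = u s u⁻¹ n` with `u` in `GN`, `n` in `N0`. The lemmas are the fields
`kf_*` of `CData.Ok`. `exists_N0`: the subgroup `N0`. `exists_R`: representatives of `G / GN`.
-/

set_option autoImplicit false

open Finset

namespace Pool.Agent.SmN.Ch

variable {G V V1 Pl : Type} [Group G] [AddCommGroup V] [DistribMulAction G V]
  [AddCommGroup V1] [Module (ZMod 2) V1]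

/-- Conjugacy under `GN` modulo `N0`. -/
def kst (S : Sys G V V1 Pl) (N0 : Subgroup G) (hN : N0.Normal) : Setoid G where
  r s t := ∃ u ∈ S.GN, ∃ n ∈ N0, t = u * s * u⁻¹ * n
  iseqv := by
    refine ⟨fun s => ⟨1, S.GN.one_mem, 1, N0.one_mem, by simp⟩, ?_, ?_⟩
    · rintro s t ⟨u, hu, n, hn, rfl⟩
      refine ⟨u⁻¹, S.GN.inv_mem hu, u⁻¹ * n⁻¹ * u, ?_, by group⟩
      have := hN.conj_mem n⁻¹ (N0.inv_mem hn) u⁻¹
      rwa [inv_inv] at this
    · rintro s t r ⟨u, hu, n, hn, rfl⟩ ⟨u', hu', n', hn', rfl⟩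
      exact ⟨u' * u, S.GN.mul_mem hu' hu, u' * n * u'⁻¹ * n',
        N0.mul_mem (hN.conj_mem n hn u') hn', by group⟩

/-- What `N0` must satisfy. -/
structure NT (S : Sys G V V1 Pl) (T : Set Pl) (N0 : Subgroup G) : Prop where
  mem : N0 ∈ S.NN
  fin : N0.FiniteIndex
  sg : ∀ v, v ∉ T → S.sg v ∈ N0
  four : ∀ n ∈ N0, ∀ Q : V, (4 : ℕ) • Q = 0 → n • Q = Q
  coc : ∀ c, ZT S T c → ∀ s, ∀ n ∈ N0, c (s * n) = c s
  hom : ∀ c, XT S T c → ∀ s, ∀ n ∈ N0, c (s * n) = c s

variable {S : Sys G V V1 Pl} {T : Set Pl} {N0 : Subgroup G}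

theorem NT.ac (hS : S.Ok) (h : NT S T N0) {n : G} (hn : n ∈ N0) : S.ac n = 1 := by
  ext w
  apply hS.iota_inj
  rw [← hS.iota_ac, h.four n hn]
  · rfl
  · have h1 : (2 : ℕ) • S.iota w = 0 := by
      rw [← map_nsmul, two_nsmul, ZModModule.add_self, map_zero]
    have h2 : (4 : ℕ) • S.iota w = (2 : ℕ) • ((2 : ℕ) • S.iota w) := by
      rw [← mul_smul]
      rfl
    rw [h2, h1, smul_zero]

theorem NT.le_GN (hS : S.Ok) (h : NT S T N0) : N0 ≤ S.GN := fun _ hn => by
  rw [Sys.GN, MonoidHom.mem_ker]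
  exact h.ac hS hn

/-- Value of a cocycle at a conjugate. -/
theorem coc_conj {c : G → V1} (hc : S.CocG c) (u s : G) :
    c (u * s * u⁻¹) = c u + S.ac u (c s) - S.ac (u * s * u⁻¹) (c u) := by
  have h1 := hc.2 (u * s * u⁻¹) u
  have h2 : u * s * u⁻¹ * u = u * s := by group
  rw [h2, hc.2 u s] at h1
  rw [h1]
  abel

variable (hS : S.Ok) (h : NT S T N0)

include hS h

theorem kf_fin : Finite (Quotient (kst S N0 (hS.normal N0 h.mem))) := by
  have := h.fin
  have hf : Finite (G ⧸ N0) := inferInstance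
  have hw : ∀ a b : G, (QuotientGroup.leftRel N0) a b →
      Quotient.mk (kst S N0 (hS.normal N0 h.mem)) a =
        Quotient.mk (kst S N0 (hS.normal N0 h.mem)) b := by
    intro a b hab
    rw [QuotientGroup.leftRel_apply] at hab
    exact @Quotient.sound G (kst S N0 (hS.normal N0 h.mem)) a b
      ⟨1, S.GN.one_mem, a⁻¹ * b, hab, by group⟩
  exact Finite.of_surjective (fun x : G ⧸ N0 => Quotient.liftOn' x
    (fun s => (Quotient.mk (kst S N0 (hS.normal N0 h.mem)) s)) hw) fun y => by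
      obtain ⟨s, rfl⟩ := @Quotient.exists_rep G (kst S N0 (hS.normal N0 h.mem)) y
      exact ⟨QuotientGroup.mk s, rfl⟩

theorem kf_tf : ∃ N ∈ S.NN, N.index ≠ 0 ∧ (∀ v, v ∉ T → S.sg v ∈ N) ∧ ∀ s, ∀ n ∈ N,
    Quotient.mk (kst S N0 (hS.normal N0 h.mem)) (s * n) =
      Quotient.mk (kst S N0 (hS.normal N0 h.mem)) s := by
  refine ⟨N0, h.mem, h.fin.index_ne_zero, h.sg, fun s n hn => ?_⟩
  exact @Quotient.sound G (kst S N0 (hS.normal N0 h.mem)) _ _
    ((kst S N0 (hS.normal N0 h.mem)).symm' ⟨1, S.GN.one_mem, n, hn, by group⟩)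

theorem kf_conj (s t : G) (ht : t ∈ S.GN) :
    Quotient.mk (kst S N0 (hS.normal N0 h.mem)) (t * s * t⁻¹) =
      Quotient.mk (kst S N0 (hS.normal N0 h.mem)) s :=
  @Quotient.sound G (kst S N0 (hS.normal N0 h.mem)) _ _
    ((kst S N0 (hS.normal N0 h.mem)).symm' ⟨t, ht, 1, N0.one_mem, by group⟩)

theorem kf_ac (s t : G) (hst : Quotient.mk (kst S N0 (hS.normal N0 h.mem)) s =
    Quotient.mk (kst S N0 (hS.normal N0 h.mem)) t) : S.ac s = S.ac t := by
  obtain ⟨u, hu, n, hn, rfl⟩ := Quotient.exact hst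
  rw [Sys.GN, MonoidHom.mem_ker] at hu
  rw [map_mul, map_mul, map_mul, map_inv, hu, h.ac hS hn]
  simp

theorem kf_coc (c : G → V1) (hc : ZT S T c) (s t : G)
    (hst : Quotient.mk (kst S N0 (hS.normal N0 h.mem)) s =
      Quotient.mk (kst S N0 (hS.normal N0 h.mem)) t) :
    ∃ z : V1, c s - c t = S.ac s z - z := by
  have hac := kf_ac hS h s t hst
  obtain ⟨u, hu, n, hn, rfl⟩ := Quotient.exact hst
  rw [Sys.GN, MonoidHom.mem_ker] at hu
  rw [h.coc c hc _ _ hn, coc_conj hc.1]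
  have h1 : S.ac (u * s * u⁻¹) = S.ac s := by
    rw [map_mul, map_mul, map_inv, hu]
    simp
  have h2 : S.ac u (c s) = c s := by rw [hu]; rfl
  rw [h1, h2]
  refine ⟨c u, ?_⟩
  abel

theorem kf_hom (c : G → ZMod 2) (hc : XT S T c) (s t : G)
    (hst : Quotient.mk (kst S N0 (hS.normal N0 h.mem)) s =
      Quotient.mk (kst S N0 (hS.normal N0 h.mem)) t) : c s = c t := by
  obtain ⟨u, hu, n, hn, rfl⟩ := Quotient.exact hst
  rw [h.hom c hc _ _ hn, hc.1.2, hc.1.2]
  have h1 : c u + c u⁻¹ = 0 := by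
    rw [← hc.1.2, mul_inv_cancel]
    have h2 := hc.1.2 1 1
    rw [mul_one] at h2
    exact left_eq_add.1 h2
  linear_combination -h1

theorem kf_four (s t : G) (hst : Quotient.mk (kst S N0 (hS.normal N0 h.mem)) s =
    Quotient.mk (kst S N0 (hS.normal N0 h.mem)) t) (Q : V) (hQ : (4 : ℕ) • Q = 0)
    (hs : s • ((2 : ℕ) • Q) = (2 : ℕ) • Q) : ∃ z : V1, s • Q - t • Q = S.iota (S.ac s z - z) := by
  obtain ⟨u, hu, n, hn, rfl⟩ := Quotient.exact hst
  rw [Sys.GN, MonoidHom.mem_ker] at hu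
  have hu' : S.ac u⁻¹ = 1 := by rw [map_inv, hu, inv_one]
  have htwo : (2 : ℕ) • ((2 : ℕ) • Q) = 0 := by rw [← mul_smul]; exact hQ
  -- `u` acts trivially on the `2`-torsion
  have hfix : ∀ (a : G), S.ac a = 1 → ∀ R : V, (2 : ℕ) • R = 0 → a • R = R := by
    intro a ha R hR
    obtain ⟨w, rfl⟩ := hS.iota_range R hR
    rw [hS.iota_ac, ha]
    rfl
  have hsm : ∀ (a : G) (m : ℕ) (R : V), a • (m • R) = m • (a • R) := fun a m R =>
    map_nsmul (DistribSMul.toAddMonoidHom V a) m R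
  have hexz : ∀ (a : G) (R : V), S.ac a = 1 → (2 : ℕ) • ((2 : ℕ) • R) = 0 →
      ∃ z, a • R = R + S.iota z := by
    intro a R ha hR
    have h1 : (2 : ℕ) • (a • R - R) = 0 := by
      rw [nsmul_sub, ← hsm, hfix a ha _ hR, sub_self]
    obtain ⟨z, hz⟩ := hS.iota_range _ h1
    exact ⟨z, by rw [hz]; abel⟩
  obtain ⟨z, hz⟩ := hexz u⁻¹ Q hu' htwo
  have huz : ∀ w : V1, u • S.iota w = S.iota w := fun w => by
    rw [hS.iota_ac, hu]
    rfl
  have h1 : u • Q = Q - S.iota z := by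
    have h2 := congrArg (fun R => u • R) hz
    simp only [smul_inv_smul, smul_add, huz] at h2
    exact eq_sub_of_add_eq h2.symm
  have h3 : u • (s • Q) = s • Q - S.iota z := by
    have h4 : (2 : ℕ) • (s • Q - Q) = 0 := by
      rw [nsmul_sub, ← hsm, hs, sub_self]
    have h5 := hfix u hu _ h4
    rw [smul_sub, h1] at h5
    have h6 : u • (s • Q) = u • s • Q - (Q - S.iota z) + (Q - S.iota z) := by abel
    rw [h6, h5]
    abel
  refine ⟨z, ?_⟩
  rw [mul_smul, h.four n hn Q hQ, mul_smul, mul_smul, hz, smul_add, hS.iota_ac, smul_add, h3, huz,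
    map_sub]
  have h7 : S.iota z = -S.iota z := by
    have h8 : S.iota z + S.iota z = 0 := by
      rw [← map_add, ZModModule.add_self, map_zero]
    exact eq_neg_of_add_eq_zero_left h8
  have h9 : S.iota (S.ac s z) = -S.iota (S.ac s z) := by
    have h8 : S.iota (S.ac s z) + S.iota (S.ac s z) = 0 := by
      rw [← map_add, ZModModule.add_self, map_zero]
    exact eq_neg_of_add_eq_zero_left h8
  have h10 : s • Q - (s • Q - S.iota z + S.iota (S.ac s z)) = S.iota z - S.iota (S.ac s z) := by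
    abel
  rw [h10]
  nth_rewrite 1 [h7]
  nth_rewrite 1 [h9]
  abel

omit hS h in
/-- The subgroup `N0` exists. -/
theorem exists_N0 (hS : S.Ok) (hfi : ∀ N ∈ S.NN, N.FiniteIndex)
    (hup : ∀ N ∈ S.NN, ∀ N' : Subgroup G, N'.Normal → N ≤ N' → N' ∈ S.NN) (hV : LagV S T)
    (hF : LagF S T) : ∃ N0, NT S T N0 := by
  have := hS.fin1
  have hTf : Finite T := hV.fin
  -- finitely many cocycles and characters
  have hZ : {c : G → V1 | ZT S T c}.Finite := by
    have h1 : ({c : G → V1 | ZT S T c} : Set (G → V1)) ⊆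
        ⋃ y : T → V1 × V1, {c | ZT S T c ∧ ∀ v : T, S.loc v c = y v} := by
      intro c hc
      exact Set.mem_iUnion.2 ⟨fun v => S.loc v c, hc, fun _ => rfl⟩
    refine (Set.finite_iUnion fun y => ?_).subset h1
    by_cases hy : ∃ c0, ZT S T c0 ∧ ∀ v : T, S.loc v c0 = y v
    · obtain ⟨c0, hc0, hc0'⟩ := hy
      refine (Set.finite_range (fun z : V1 => (fun s => c0 s + (S.ac s z - z)))).subset ?_
      rintro c ⟨hc, hc'⟩
      have h2 : ZT S T (fun s => c s + c0 s) :=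
        ⟨Sys.CocG.add hS hc.1 hc0.1, fun v hv => by
          simp only
          rw [hc.2 v hv, hc0.2 v hv, add_zero]⟩
      obtain ⟨z, hz⟩ := hV.inj _ h2 fun v hv => ⟨0, by
        have h3 : S.loc v (fun s => c s + c0 s) = S.loc v c + S.loc v c0 := rfl
        rw [h3, hc' ⟨v, hv⟩, hc0' ⟨v, hv⟩, ZModModule.add_self]
        simp [Sys.cob]
        rfl⟩
      refine ⟨z, ?_⟩
      funext s
      have h4 : c s + c0 s = S.ac s z - z := hz s
      change c0 s + (S.ac s z - z) = c s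
      rw [← h4, add_comm (c s), ← add_assoc, ZModModule.add_self, zero_add]
    · have : {c | ZT S T c ∧ ∀ v : T, S.loc v c = y v} = ∅ := by
        ext c
        simp only [Set.mem_ofPred_eq, Set.mem_empty_iff_false, iff_false]
        exact fun hc => hy ⟨c, hc⟩
      rw [this]
      exact Set.finite_empty
  have hX : {c : G → ZMod 2 | XT S T c}.Finite := by
    refine Set.Finite.of_finite_image (f := fun c => fun v : T => loc2 S v c)
      (Set.toFinite _) ?_
    intro c hc d hd hcd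
    have h2 : XT S T (fun s => c s + d s) :=
      ⟨Sys.HomG.add hS hc.1 hd.1, fun v hv => by
        simp only
        rw [hc.2 v hv, hd.2 v hv, add_zero]⟩
    have h3 := hF.inj _ h2 fun v hv => by
      have h4 : loc2 S v c = loc2 S v d := congrFun hcd ⟨v, hv⟩
      have h5 : loc2 S v (fun s => c s + d s) = loc2 S v c + loc2 S v d := rfl
      rw [h5, h4]
      exact Prod.ext (CharTwo.add_self_eq_zero _) (CharTwo.add_self_eq_zero _)
    funext s
    have h6 : c s + d s = 0 := congrFun h3 s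
    have h7 : d s + d s = 0 := CharTwo.add_self_eq_zero _
    linear_combination h6 - h7
  have hZf : Finite {c : G → V1 // ZT S T c} := hZ
  have hXf : Finite {c : G → ZMod 2 // XT S T c} := hX
  obtain ⟨N1, hN1, h1⟩ := Sys.TF.pi hS (f := fun c : {c : G → V1 // ZT S T c} => c.1)
    fun c => c.2.1.1
  obtain ⟨N2, hN2, h2⟩ := Sys.TF.pi hS (f := fun c : {c : G → ZMod 2 // XT S T c} => c.1)
    fun c => c.2.1.1
  obtain ⟨N3, hN3, h3⟩ := hS.act_fin 2
  -- the largest possible subgroup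
  have hac : ∀ n : G, (∀ Q : V, (4 : ℕ) • Q = 0 → n • Q = Q) → S.ac n = 1 := by
    intro n hn
    ext w
    apply hS.iota_inj
    rw [← hS.iota_ac, hn]
    · rfl
    · have h5 : (2 : ℕ) • S.iota w = 0 := by
        rw [← map_nsmul, two_nsmul, ZModModule.add_self, map_zero]
      have h6 : (4 : ℕ) • S.iota w = (2 : ℕ) • ((2 : ℕ) • S.iota w) := by
        rw [← mul_smul]
        rfl
      rw [h6, h5, smul_zero]
  have hsm : ∀ (a : G) (m : ℕ) (R : V), a • (m • R) = m • (a • R) := fun a m R =>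
    map_nsmul (DistribSMul.toAddMonoidHom V a) m R
  have hX1 : ∀ c : G → ZMod 2, S.HomG c → c 1 = 0 := by
    intro c hc
    have h5 := hc.2 1 1
    rw [mul_one] at h5
    exact left_eq_add.1 h5
  let N : Subgroup G :=
    { carrier := {n | (∀ Q : V, (4 : ℕ) • Q = 0 → n • Q = Q) ∧ (∀ c, ZT S T c → c n = 0) ∧
        ∀ c, XT S T c → c n = 0}
      one_mem' := ⟨fun Q _ => one_smul G Q, fun c hc => Sys.cocG_one hc.1.2, fun c hc =>
        hX1 c hc.1⟩
      mul_mem' := by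
        rintro a b ⟨ha1, ha2, ha3⟩ ⟨hb1, hb2, hb3⟩
        refine ⟨fun Q hQ => by rw [mul_smul, hb1 Q hQ, ha1 Q hQ], fun c hc => ?_, fun c hc => ?_⟩
        · rw [hc.1.2, ha2 c hc, hb2 c hc, map_zero, add_zero]
        · rw [hc.1.2, ha3 c hc, hb3 c hc, add_zero]
      inv_mem' := by
        rintro a ⟨ha1, ha2, ha3⟩
        refine ⟨fun Q hQ => ?_, fun c hc => ?_, fun c hc => ?_⟩
        · rw [inv_smul_eq_iff, ha1 Q hQ]
        · have h5 := hc.1.2 a a⁻¹
          rw [mul_inv_cancel, Sys.cocG_one hc.1.2, ha2 c hc, hac a ha1, zero_add] at h5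
          exact h5.symm
        · have h5 := hc.1.2 a a⁻¹
          rw [mul_inv_cancel, hX1 c hc.1, ha3 c hc, zero_add] at h5
          exact h5.symm }
  have hmem : ∀ n : G, n ∈ N ↔ (∀ Q : V, (4 : ℕ) • Q = 0 → n • Q = Q) ∧
      (∀ c, ZT S T c → c n = 0) ∧ ∀ c, XT S T c → c n = 0 := fun _ => Iff.rfl
  have hnorm : N.Normal := by
    refine ⟨fun n hn s => ?_⟩
    rw [hmem] at hn ⊢
    obtain ⟨h5, h6, h7⟩ := hn
    have h8 : ∀ Q : V, (4 : ℕ) • Q = 0 → (s * n * s⁻¹) • Q = Q := by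
      intro Q hQ
      rw [mul_smul, mul_smul, h5 (s⁻¹ • Q) (by rw [← hsm, hQ, smul_zero]), smul_inv_smul]
    refine ⟨h8, fun c hc => ?_, fun c hc => ?_⟩
    · rw [coc_conj hc.1, h6 c hc, hac _ h8, map_zero]
      change c s + 0 - c s = 0
      abel
    · rw [hc.1.2, hc.1.2, h7 c hc, add_zero]
      have h9 := hc.1.2 s s⁻¹
      rw [mul_inv_cancel, hX1 c hc.1] at h9
      exact h9.symm
  have hle : N1 ⊓ (N2 ⊓ N3) ≤ N := by
    intro n hn
    rw [hmem]
    refine ⟨fun Q hQ => h3 n hn.2.2 Q hQ, fun c hc => ?_, fun c hc => ?_⟩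
    · have h5 := congrFun (h1 1 n hn.1) ⟨c, hc⟩
      rw [one_mul] at h5
      exact h5.trans (Sys.cocG_one hc.1.2)
    · have h5 := congrFun (h2 1 n hn.2.1) ⟨c, hc⟩
      rw [one_mul] at h5
      exact h5.trans (hX1 c hc.1)
  have hN : N ∈ S.NN := hup _ (hS.inf_mem _ hN1 _ (hS.inf_mem _ hN2 _ hN3)) N hnorm hle
  refine ⟨N, hN, hfi N hN, fun v hv => ?_, fun n hn => hn.1, fun c hc s n hn => ?_,
    fun c hc s n hn => ?_⟩
  · rw [hmem]
    have hg : v ∈ S.good := by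
      by_contra hg
      exact hv (hV.bad hg)
    exact ⟨fun Q _ => hS.good_triv v hg Q, fun c hc => hc.2 v hv, fun c hc => hc.2 v hv⟩
  · rw [hc.1.2, hn.2.1 c hc, map_zero, add_zero]
  · rw [hc.1.2, hn.2.2 c hc, add_zero]

omit hS h in
/-- Representatives of `G / GN`. -/
theorem exists_R (hS : S.Ok) (h : NT S T N0) :
    ∃ R : Finset G, ∀ g : G, ∃! r, r ∈ R ∧ g⁻¹ * r ∈ S.GN := by
  classical
  have := h.fin
  have h1 : S.GN.FiniteIndex := Subgroup.finiteIndex_of_le (h.le_GN hS)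
  have h2 : Finite (G ⧸ S.GN) := inferInstance
  have := Fintype.ofFinite (G ⧸ S.GN)
  refine ⟨Finset.univ.image fun x : G ⧸ S.GN => Quotient.out x, fun g => ?_⟩
  refine ⟨Quotient.out (QuotientGroup.mk g : G ⧸ S.GN), ⟨Finset.mem_image_of_mem _
    (Finset.mem_univ _), ?_⟩, ?_⟩
  · rw [← QuotientGroup.eq]
    exact (Quotient.out_eq _).symm
  · rintro r ⟨hr, hr'⟩
    obtain ⟨x, _, rfl⟩ := Finset.mem_image.1 hr
    rw [← QuotientGroup.eq] at hr'
    congr 1
    rw [hr']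
    exact (Quotient.out_eq x).symm

end Pool.Agent.SmN.Ch
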