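import Pool.Agent.Lib.SmN.Ch.Chr

/-!
# SMITH-U (SmN), the counting data from duality: `CData.Ok`

`exists_cdata`: for `S.Ok`, a finite set `T` of places with `LagV S T` and `LagF S T`, no fixed vector in
`V1` and `F_2[G] → End V1 × F_2` onto, there is a family of counting data (one for every base
character `chi0`) on the prime system of the places outside `T`, all with the same characters `ch`,
with `CData.Ok` whenever `chi0` is unramified outside `T`.
-/

set_option autoImplicit false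

open Finset

namespace Pool.Agent.SmN.Ch

variable {G V V1 Pl : Type} [Group G] [AddCommGroup V] [DistribMulAction G V]
  [AddCommGroup V1] [Module (ZMod 2) V1]

variable {S : Sys G V V1 Pl} {T : Set Pl}

/-- The prime system of the places outside `T`. -/
def XX (T : Set Pl) (deg : Pl → ℕ) : PSys := ⟨{v : Pl // v ∉ T}, fun v => deg v.1⟩

/-- A character which vanishes at `sg v` and `phi v` vanishes on `D v`. -/
theorem hom_D0 (hS : S.Ok) {c : G → ZMod 2} (hc : S.HomG c) {v : Pl} (h1 : c (S.sg v) = 0)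
    (h2 : c (S.phi v) = 0) : ∀ s ∈ S.D v, c s = 0 := by
  have hone : c 1 = 0 := by
    have h5 := hc.2 1 1
    rw [mul_one] at h5
    exact left_eq_add.1 h5
  let K : Subgroup G :=
    { carrier := {s | c s = 0}
      one_mem' := hone
      mul_mem' := by
        intro a b ha hb
        change c (a * b) = 0
        rw [hc.2, ha, hb, add_zero]
      inv_mem' := by
        intro a ha
        change c a⁻¹ = 0
        have h5 := hc.2 a a⁻¹
        have ha' : c a = 0 := ha
        rw [mul_inv_cancel, hone, ha', zero_add] at h5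
        exact h5.symm }
  obtain ⟨N, hN, hf⟩ := hc.1
  intro s hs
  obtain ⟨t, ht, hn⟩ := hS.gen v N hN s hs
  have hK : Subgroup.closure {S.phi v, S.sg v} ≤ K := by
    rw [Subgroup.closure_le]
    rintro _ (rfl | rfl)
    · exact h2
    · exact h1
  have h3 := hf t _ hn
  rw [mul_inv_cancel_left] at h3
  rw [h3]
  exact hK ht

/-- A cocycle whose pair of values at `v` is that of a coboundary is this coboundary on `D v`. -/
theorem coc_D0 (hS : S.Ok) {c : G → V1} (hc : S.CocG c) {v : Pl} {z : V1}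
    (h : S.loc v c = S.cob v z) : ∀ s ∈ S.D v, c s = S.ac s z - z := by
  have h1 : c (S.sg v) = S.ac (S.sg v) z - z := congrArg Prod.fst h
  have h2 : c (S.phi v) = S.ac (S.phi v) z - z := congrArg Prod.snd h
  let K : Subgroup G :=
    { carrier := {s | c s = S.ac s z - z}
      one_mem' := by
        change c 1 = S.ac 1 z - z
        rw [Sys.cocG_one hc.2, map_one]
        simp
      mul_mem' := by
        intro a b ha hb
        have ha' : c a = S.ac a z - z := ha
        have hb' : c b = S.ac b z - z := hb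
        change c (a * b) = S.ac (a * b) z - z
        rw [hc.2, ha', hb', map_sub, map_mul, LinearEquiv.mul_apply]
        abel
      inv_mem' := by
        intro a ha
        have ha' : c a = S.ac a z - z := ha
        change c a⁻¹ = S.ac a⁻¹ z - z
        have h5 := hc.2 a⁻¹ a
        rw [inv_mul_cancel, Sys.cocG_one hc.2, ha', map_sub, ← LinearEquiv.mul_apply, ← map_mul,
          inv_mul_cancel, map_one] at h5
        have h6 : c a⁻¹ = -(z - S.ac a⁻¹ z) := eq_neg_of_add_eq_zero_left h5.symm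
        rw [h6]
        abel }
  obtain ⟨N, hN, hf⟩ := hc.1
  obtain ⟨N', hN', hf'⟩ := Sys.ac_fin hS
  intro s hs
  obtain ⟨t, ht, hn⟩ := hS.gen v _ (hS.inf_mem _ hN _ hN') s hs
  have hK : Subgroup.closure {S.phi v, S.sg v} ≤ K := by
    rw [Subgroup.closure_le]
    rintro _ (rfl | rfl)
    · exact h2
    · exact h1
  have h3 := hf t _ hn.1
  rw [mul_inv_cancel_left] at h3
  have h4 : S.ac s = S.ac t := by
    have h5 := hf' _ hn.2
    rw [map_mul, map_inv, inv_mul_eq_one] at h5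
    exact h5.symm
  rw [h3, h4]
  exact hK ht

theorem exists_cdata (hS : S.Ok) (hfi : ∀ N ∈ S.NN, N.FiniteIndex)
    (hup : ∀ N ∈ S.NN, ∀ N' : Subgroup G, N'.Normal → N ≤ N' → N' ∈ S.NN) (hV : LagV S T)
    (hF : LagF S T) (nofix : ∀ w : V1, (∀ s, S.ac s w = w) → w = 0)
    (span : ∀ (A : V1 →ₗ[ZMod 2] V1) (ε : ZMod 2), ∃ T : Finset G,
      (∀ w, ∑ g ∈ T, S.ac g w = A w) ∧ (T.card : ZMod 2) = ε) (deg : Pl → ℕ) :
    ∃ cd : (G → ZMod 2) → CData S (XX T deg), ∀ chi0,
      (cd chi0).pl = Subtype.val ∧ cd chi0 = { cd 0 with chi0 := chi0 } ∧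
      (XT S T chi0 → (cd chi0).Ok) := by
  classical
  have := hS.fin1
  have hgood : ∀ v, v ∉ T → v ∈ S.good := fun v hv => by
    by_contra hg
    exact hv (hV.bad hg)
  obtain ⟨N0, hN⟩ := exists_N0 hS hfi hup hV hF
  obtain ⟨R, hR⟩ := exists_R hS hN
  obtain ⟨sec, be, hbe⟩ := exists_be hS hV
  obtain ⟨sec2, ch, hch⟩ := exists_ch hS hV hF
  -- the space `ZTm` is finite
  have hZfin : Finite (ZTm hS T) := by
    have := hN.fin
    have h2 : Finite (G ⧸ N0) := inferInstance
    refine Finite.of_injective (fun c : ZTm hS T => fun x : G ⧸ N0 => c.1 (Quotient.out x)) ?_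
    intro c d hcd
    ext s
    have h3 : ∀ c : ZTm hS T, c.1 s = c.1 (Quotient.out (QuotientGroup.mk s : G ⧸ N0)) := by
      intro c
      have h4 : s⁻¹ * Quotient.out (QuotientGroup.mk s : G ⧸ N0) ∈ N0 := by
        rw [← QuotientGroup.eq]
        exact (Quotient.out_eq _).symm
      have h5 := hN.coc c.1 c.2 s _ h4
      rw [mul_inv_cancel_left] at h5
      exact h5.symm
    rw [h3 c, h3 d]
    exact congrFun hcd _
  let bas := Module.finBasis (ZMod 2) (ZTm hS T)
  let h := Module.finrank (ZMod 2) (ZTm hS T)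
  let eqv : (Fin h → ZMod 2) ≃ₗ[ZMod 2] ZTm hS T := bas.equivFun.symm
  -- coboundaries
  have hcobZ : ∀ z : V1, ZT S T (fun s => S.ac s z - z) := by
    intro z
    refine ⟨⟨?_, fun s t => ?_⟩, fun v hv => ?_⟩
    · obtain ⟨N, hN, hf⟩ := Sys.ac_fin hS
      refine ⟨N, hN, fun s n hn => ?_⟩
      beta_reduce
      rw [map_mul, hf n hn, mul_one]
    · simp only [map_mul, LinearEquiv.mul_apply, map_sub]
      abel
    · simp only [Sys.ac_sg hS (hgood v hv)]
      simp
  let cobm : V1 →ₗ[ZMod 2] ZTm hS T :=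
    { toFun := fun z => ⟨fun s => S.ac s z - z, hcobZ z⟩
      map_add' := by
        intro a b
        ext s
        change S.ac s (a + b) - (a + b) = (S.ac s a - a) + (S.ac s b - b)
        rw [map_add]
        abel
      map_smul' := by
        intro a b
        ext s
        change S.ac s (a • b) - (a • b) = a • (S.ac s b - b)
        rw [map_smul, smul_sub] }
  let cd : (G → ZMod 2) → CData S (XX T deg) := fun chi0 =>
    { pl := Subtype.val
      R := R
      Kf := Quotient (kst S N0 (hS.normal N0 hN.mem))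
      kf := fun s => Quotient.mk (kst S N0 (hS.normal N0 hN.mem)) s
      chi0 := chi0
      ch := fun P => ch P.1
      be := fun P => be P.1
      h := h
      hb := (ZTm hS T).subtype ∘ₗ eqv.toLinearMap
      kb := eqv.symm.toLinearMap ∘ₗ cobm }
  refine ⟨cd, fun chi0 => ⟨rfl, rfl, fun hchi0 => ?_⟩⟩
  have hT_iff : ∀ v, v ∉ Set.range (cd chi0).pl ↔ v ∈ T := by
    intro v
    constructor
    · intro hv
      by_contra hvT
      exact hv ⟨⟨v, hvT⟩, rfl⟩
    · rintro hv ⟨P, rfl⟩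
      exact P.2 hv
  have hUnr : ∀ {A : Type} [Zero A] (c : G → A), (cd chi0).Unr c ↔ ∀ v, v ∉ T → c (S.sg v) = 0 :=
    fun c => ⟨fun hc v hv => hc ⟨v, hv⟩, fun hc P => hc P.1 P.2⟩
  -- values of characters at conjugates
  have hconj : ∀ c : G → ZMod 2, S.HomG c → ∀ g s, c (g * s * g⁻¹) = c s := by
    intro c hc g s
    have h1 := hc.2 g g⁻¹
    have h5 := hc.2 1 1
    rw [mul_one] at h5
    have h6 : c 1 = 0 := left_eq_add.1 h5
    rw [mul_inv_cancel, h6] at h1
    rw [hc.2, hc.2]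
    linear_combination -h1
  have hmu : ∀ x y : (cd chi0).Mk, (cd chi0).kf ((cd chi0).phx x) = (cd chi0).kf ((cd chi0).phx y) →
      mu hS T (S.phi x.1.1) = mu hS T (S.phi y.1.1) := by
    intro x y hxy
    ext b
    rw [mu_apply, mu_apply, ← hconj b.1 b.2.1 x.2.1 (S.phi x.1.1),
      ← hconj b.1 b.2.1 y.2.1 (S.phi y.1.1)]
    exact kf_hom hS hN b.1 b.2 _ _ hxy
  -- fixed vectors
  have hfix : ∀ (x : (cd chi0).Mk) (w : V1), (cd chi0).Fx x w →
      S.ac (S.phi x.1.1) (S.ac x.2.1⁻¹ w) = S.ac x.2.1⁻¹ w := by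
    intro x w hw
    have h1 : S.ac (x.2.1 * S.phi x.1.1 * x.2.1⁻¹) w = w := hw
    have h2 := congrArg (S.ac x.2.1⁻¹) h1
    rw [← LinearEquiv.mul_apply, ← map_mul] at h2
    have h3 : x.2.1⁻¹ * (x.2.1 * S.phi x.1.1 * x.2.1⁻¹) = S.phi x.1.1 * x.2.1⁻¹ := by group
    rw [h3, map_mul, LinearEquiv.mul_apply] at h2
    exact h2
  have hlam : ∀ (x y : (cd chi0).Mk) (w : V1),
      (cd chi0).kf ((cd chi0).phx x) = (cd chi0).kf ((cd chi0).phx y) → (cd chi0).Fx x w →
      lam hS T (S.phi x.1.1) (S.ac x.2.1⁻¹ w) = lam hS T (S.phi y.1.1) (S.ac y.2.1⁻¹ w) := by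
    intro x y w hxy hw
    have hgen : ∀ (x : (cd chi0).Mk), (cd chi0).Fx x w → ∀ b : ZTm hS T,
        S.e (S.ac x.2.1⁻¹ w) (b.1 (S.phi x.1.1)) = S.e w (b.1 ((cd chi0).phx x)) := by
      intro x hx b
      have h1 : (cd chi0).phx x = x.2.1 * S.phi x.1.1 * x.2.1⁻¹ := rfl
      have hx' : S.ac (x.2.1 * S.phi x.1.1 * x.2.1⁻¹) w = w := hx
      rw [h1, coc_conj b.2.1, ← hS.e_inv x.2.1, ← LinearEquiv.mul_apply, ← map_mul,
        mul_inv_cancel, map_one, map_sub, map_add]
      have h2 : S.e w (S.ac (x.2.1 * S.phi x.1.1 * x.2.1⁻¹) (b.1 x.2.1)) = S.e w (b.1 x.2.1) := by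
        nth_rewrite 1 [← hx']
        rw [hS.e_inv]
      rw [h2]
      change S.e w _ = _
      ring
    have hy : (cd chi0).Fx y w := by
      have h1 := kf_ac hS hN _ _ hxy
      have h2 : S.ac ((cd chi0).phx x) w = w := hw
      rw [h1] at h2
      exact h2
    ext b
    rw [lam_apply, lam_apply, hgen x hw b, hgen y hy b]
    obtain ⟨z, hz⟩ := kf_coc hS hN b.1 b.2 _ _ hxy
    have h3 : S.e w (b.1 ((cd chi0).phx x) - b.1 ((cd chi0).phx y)) = 0 := by
      rw [hz, map_sub]
      have h4 : S.e w (S.ac ((cd chi0).phx x) z) = S.e w z := by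
        have h2 : S.ac ((cd chi0).phx x) w = w := hw
        nth_rewrite 1 [← h2]
        rw [hS.e_inv]
      rw [h4, sub_self]
    rw [map_sub, sub_eq_zero] at h3
    exact h3
  refine
    { pl_inj := Subtype.val_injective
      pl_good := fun P => hgood P.1 P.2
      fin_bad := ?_
      rep := hR
      kf_fin := kf_fin hS hN
      kf_tf := ?_
      kf_conj := fun s t ht => kf_conj hS hN s t ht
      kf_ac := fun s t hst => kf_ac hS hN s t hst
      kf_four := fun s t hst Q hQ hs => kf_four hS hN s t hst Q hQ hs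
      kf_coc := fun c hc hcu s t hst => kf_coc hS hN c ⟨hc, (hUnr c).1 hcu⟩ s t hst
      kf_hom := fun c hc hcu s t hst => kf_hom hS hN c ⟨hc, (hUnr c).1 hcu⟩ s t hst
      kf_bad := ?_
      chi0_hom := hchi0.1
      chi0_unr := (hUnr chi0).2 hchi0.2
      ch_hom := fun P => (hch P.1 P.2).1
      ch_self := fun P => (hch P.1 P.2).2.1
      ch_unr := fun P Q hPQ => (hch P.1 P.2).2.2.1 Q.1 Q.2 fun h => hPQ (Subtype.ext h)
      ch_rec := ?_
      be_coc := fun P w hw => (hbe P.1 P.2 w hw).1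
      be_add := fun P w w' hw hw' => (hbe P.1 P.2 w hw).2.2.2.2 w' hw'
      be_self := fun P w hw => (hbe P.1 P.2 w hw).2.1
      be_unr := fun P w Q hPQ hw => (hbe P.1 P.2 w hw).2.2.1 Q.1 Q.2 fun h => hPQ (Subtype.ext h)
      hb_inj := ?_
      hb_range := ?_
      kb_eq := ?_
      nofix := nofix
      span := span }
  · have h1 : (Set.range (cd chi0).pl)ᶜ = T := by
      ext v
      exact hT_iff v
    rw [h1]
    exact hV.fin
  · obtain ⟨N, hN1, hNi, hN2, hN3⟩ := kf_tf hS hN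
    exact ⟨N, hN1, hNi, fun P => hN2 P.1 P.2, hN3⟩
  · intro x y hxy v hv
    rw [hT_iff] at hv
    refine ⟨fun s hs => ?_, fun w hw => ?_⟩
    · have h1 : loc2 S v (ch x.1.1) = loc2 S v (ch y.1.1) := by
        rw [(hch x.1.1 x.1.2).2.2.2 v hv, (hch y.1.1 y.1.2).2.2.2 v hv, hmu x y hxy]
      have h2 := hom_D0 hS (Sys.HomG.add hS (hch x.1.1 x.1.2).1 (hch y.1.1 y.1.2).1) (v := v)
        (by
          rw [Pi.add_apply]
          have h3 : ch x.1.1 (S.sg v) = ch y.1.1 (S.sg v) := congrArg Prod.fst h1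
          rw [h3]
          exact CharTwo.add_self_eq_zero _)
        (by
          rw [Pi.add_apply]
          have h3 : ch x.1.1 (S.phi v) = ch y.1.1 (S.phi v) := congrArg Prod.snd h1
          rw [h3]
          exact CharTwo.add_self_eq_zero _) s hs
      rw [Pi.add_apply] at h2
      change ch x.1.1 s = ch y.1.1 s
      have h4 : ch y.1.1 s + ch y.1.1 s = 0 := CharTwo.add_self_eq_zero _
      linear_combination h2 - h4
    · have hac := kf_ac hS hN _ _ hxy
      have hwy : (cd chi0).Fx y w := by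
        have h2 : S.ac ((cd chi0).phx x) w = w := hw
        rw [hac] at h2
        exact h2
      have hx := hbe x.1.1 x.1.2 _ (hfix x w hw)
      have hy := hbe y.1.1 y.1.2 _ (hfix y w hwy)
      obtain ⟨z, hz⟩ := hx.2.2.2.1 v hv
      obtain ⟨z', hz'⟩ := hy.2.2.2.1 v hv
      rw [hlam x y w hxy hw] at hz
      have h1 : S.loc v (be x.1.1 (S.ac x.2.1⁻¹ w) + be y.1.1 (S.ac y.2.1⁻¹ w)) =
          S.cob v (z + z') := by
        have h2 : S.loc v (be x.1.1 (S.ac x.2.1⁻¹ w) + be y.1.1 (S.ac y.2.1⁻¹ w)) =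
          S.loc v (be x.1.1 (S.ac x.2.1⁻¹ w)) + S.loc v (be y.1.1 (S.ac y.2.1⁻¹ w)) := rfl
        have h3 : S.cob v (z + z') = S.cob v z + S.cob v z' := by
          ext1
          · change S.ac (S.sg v) (z + z') - (z + z') =
              (S.ac (S.sg v) z - z) + (S.ac (S.sg v) z' - z')
            rw [map_add]
            abel
          · change S.ac (S.phi v) (z + z') - (z + z') =
              (S.ac (S.phi v) z - z) + (S.ac (S.phi v) z' - z')
            rw [map_add]
            abel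
        rw [h2, h3, hz, hz']
        set A := (sec (lam hS T (S.phi y.1.1) (S.ac y.2.1⁻¹ w))).1 v
        have h4 : A + S.cob v z + (A + S.cob v z') = (A + A) + (S.cob v z + S.cob v z') := by abel
        rw [h4, ZModModule.add_self, zero_add]
      refine ⟨z + z', fun s hs => ?_⟩
      have h5 := coc_D0 hS (Sys.CocG.add hS hx.1 hy.1) h1 s hs
      rw [← h5, Pi.add_apply, ZModModule.sub_eq_add]
      rfl
  · -- reciprocity
    let val : (cd chi0).Mk → (cd chi0).Mk → ZMod 2 := fun x y =>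
      (cd chi0).ch x.1 ((cd chi0).phx y) + (cd chi0).ch y.1 ((cd chi0).phx x)
    have hval : ∀ x y : (cd chi0).Mk, x.1 ≠ y.1 → val x y = ∑ v ∈ hV.fin.toFinset,
        sym2 S v (sec2 (mu hS T (S.phi x.1.1)) v) (sec2 (mu hS T (S.phi y.1.1)) v) := by
      intro x y hxy
      have hne : x.1.1 ≠ y.1.1 := fun h => hxy (Subtype.ext h)
      have h1 := sum_T3 hV hF x.1.2 y.1.2 hne (hch x.1.1 x.1.2).1 (hch x.1.1 x.1.2).2.2.1
        (hch y.1.1 y.1.2).1 (hch y.1.1 y.1.2).2.2.1 (hch x.1.1 x.1.2).2.1 (hch y.1.1 y.1.2).2.1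
      have h2 : val x y = ch x.1.1 (S.phi y.1.1) + ch y.1.1 (S.phi x.1.1) := by
        change ch x.1.1 (y.2.1 * S.phi y.1.1 * y.2.1⁻¹) +
          ch y.1.1 (x.2.1 * S.phi x.1.1 * x.2.1⁻¹) = _
        rw [hconj _ (hch x.1.1 x.1.2).1, hconj _ (hch y.1.1 y.1.2).1]
      rw [h2, h1]
      refine sum_congr rfl fun v hv => ?_
      rw [Set.Finite.mem_toFinset] at hv
      rw [(hch x.1.1 x.1.2).2.2.2 v hv, (hch y.1.1 y.1.2).2.2.2 v hv]
    refine ⟨fun κ κ' => if h : ∃ x y : (cd chi0).Mk, x.1 ≠ y.1 ∧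
      (cd chi0).kf ((cd chi0).phx x) = κ ∧ (cd chi0).kf ((cd chi0).phx y) = κ' then
        val h.choose h.choose_spec.choose else 0, fun x y hxy => ?_⟩
    have hex : ∃ x' y' : (cd chi0).Mk, x'.1 ≠ y'.1 ∧
      (cd chi0).kf ((cd chi0).phx x') = (cd chi0).kf ((cd chi0).phx x) ∧
      (cd chi0).kf ((cd chi0).phx y') = (cd chi0).kf ((cd chi0).phx y) := ⟨x, y, hxy, rfl, rfl⟩
    beta_reduce
    rw [dif_pos hex]
    obtain ⟨h1, h2, h3⟩ := hex.choose_spec.choose_spec
    rw [hval _ _ h1, hmu _ _ h2, hmu _ _ h3]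
    exact hval x y hxy
  · exact (Subtype.val_injective).comp eqv.injective
  · intro c
    constructor
    · rintro ⟨b, rfl⟩
      have h1 := (eqv b).2
      exact ⟨h1.1, (hUnr _).2 h1.2⟩
    · rintro ⟨hc, hcu⟩
      refine ⟨eqv.symm ⟨c, hc, (hUnr c).1 hcu⟩, ?_⟩
      change (eqv (eqv.symm ⟨c, hc, (hUnr c).1 hcu⟩)).1 = c
      rw [LinearEquiv.apply_symm_apply]
  · intro z s
    change (eqv (eqv.symm (cobm z))).1 s = _
    rw [LinearEquiv.apply_symm_apply]
    rfl

/-- The same with one counting datum and varying base character. -/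
theorem exists_cdata' (hS : S.Ok) (hfi : ∀ N ∈ S.NN, N.FiniteIndex)
    (hup : ∀ N ∈ S.NN, ∀ N' : Subgroup G, N'.Normal → N ≤ N' → N' ∈ S.NN) (hV : LagV S T)
    (hF : LagF S T) (nofix : ∀ w : V1, (∀ s, S.ac s w = w) → w = 0)
    (span : ∀ (A : V1 →ₗ[ZMod 2] V1) (ε : ZMod 2), ∃ T : Finset G,
      (∀ w, ∑ g ∈ T, S.ac g w = A w) ∧ (T.card : ZMod 2) = ε) (deg : Pl → ℕ) :
    ∃ cd : CData S (XX T deg), cd.pl = Subtype.val ∧ ∀ chi0, XT S T chi0 →
      ({ cd with chi0 := chi0 } : CData S (XX T deg)).Ok := by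
  obtain ⟨cd, h⟩ := exists_cdata hS hfi hup hV hF nofix span deg
  refine ⟨cd 0, (h 0).1, fun chi0 hc => ?_⟩
  rw [← (h chi0).2.1]
  exact (h chi0).2.2 hc

end Pool.Agent.SmN.Ch
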